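import Mathlib
import Pool.Agent.Helper998.VecMatroid

/-!
For every `k ≥ 3`, also for even `k`, there is a matroid of rank `k` whose ground set is
partitioned into `k` bases, and into `k` blocks of size `k`, which cannot be partitioned into `k`
transversals of the blocks that are bases.
-/

set_option autoImplicit false

namespace Pool.Agent.Results.MP_908e85_co.EveryK

open Pool.Agent.Helper998.VecMatroid Set

/-- six of the seven points of the Fano plane, in three pairs -/
def w (p : Fin 3 × Bool) : Fin 3 → ZMod 2 :=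
  (![![0, 1, 1], ![0, 0, 1], ![0, 1, 0]] p.1 : Fin 3 → ZMod 2) + if p.2 then ![1, 0, 0] else 0

lemma w_even : ∀ t : Fin 3 → Bool, ((t 0).toNat + (t 1).toNat + (t 2).toNat) % 2 = 0 →
    w (0, t 0) + w (1, t 1) + w (2, t 2) = 0 := by decide

lemma odd_of_indep {S : Set (Fin 3 × Bool)} (hS : LinearIndepOn (ZMod 2) w S) (t : Fin 3 → Bool)
    (ht : ∀ i, (i, t i) ∈ S) : ((t 0).toNat + (t 1).toNat + (t 2).toNat) % 2 = 1 := by
  by_contra hcon
  have h1 := w_even t (by omega)
  have h3 : Function.Injective (fun i : Fin 3 => (⟨(i, t i), ht i⟩ : S)) := by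
    intro i j hij
    exact congrArg Prod.fst (congrArg Subtype.val hij)
  have h2 := LinearIndependent.comp (ι' := Fin 3) (R := ZMod 2) (v := fun x : S => w x) hS
    (fun i : Fin 3 => (⟨(i, t i), ht i⟩ : S)) h3
  rw [Fintype.linearIndependent_iff] at h2
  have h4 := h2 (fun _ => 1) (by
    rw [Fin.sum_univ_three]
    simp only [Function.comp, one_smul]
    exact h1) 0
  exact one_ne_zero h4

lemma ind0 : LinearIndepOn (ZMod 2) w
    (Set.range (![(0, true), (0, false), (1, false)] : Fin 3 → Fin 3 × Bool)) := by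
  rw [linearIndepOn_range_iff (by decide)]
  rw [Fintype.linearIndependent_iff]
  decide

lemma ind1 : LinearIndepOn (ZMod 2) w
    (Set.range (![(1, true), (2, true), (2, false)] : Fin 3 → Fin 3 × Bool)) := by
  rw [linearIndepOn_range_iff (by decide)]
  rw [Fintype.linearIndependent_iff]
  decide

lemma ind2 : LinearIndepOn (ZMod 2) w
    (Set.range (![(0, true), (1, true), (2, true)] : Fin 3 → Fin 3 × Bool)) := by
  rw [linearIndepOn_range_iff (by decide)]
  rw [Fintype.linearIndependent_iff]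
  decide

/-- the point of the element number `p.2` of the block `p.1` -/
def pt {k : ℕ} (p : Fin k × Fin k) : (Fin 3 × Bool) ⊕ Fin k :=
  if h : p.1.1 < 3 then Sum.inl (⟨p.1.1, h⟩, decide (p.2.1 ≠ 0)) else Sum.inr p.1

/-- the matroid -/
noncomputable def mat (k : ℕ) : Matroid (Fin k × Fin k) :=
  ((vecMatroid (ZMod 2) w).sum (Matroid.freeOn (Set.univ : Set (Fin k)))).comap pt

/-- the basis that contains the element number `b` of the block `a` -/
def col (a b : ℕ) : ℕ := if a < 3 ∧ b < 2 then (if a = 0 ∨ (a = 1 ∧ b = 0) then 0 else 1) else b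

lemma mat_indep (k : ℕ) (I : Set (Fin k × Fin k)) : (mat k).Indep I ↔
    LinearIndepOn (ZMod 2) w (Sum.inl ⁻¹' (pt '' I)) ∧ Set.InjOn pt I := by
  unfold mat
  rw [Matroid.comap_indep_iff, Matroid.sum_indep_iff, vecMatroid_indep, Matroid.freeOn_indep_iff]
  simp

lemma mat_E (k : ℕ) : (mat k).E = Set.univ := by
  unfold mat
  rw [Matroid.comap_ground_eq, Matroid.sum_ground, Matroid.freeOn_ground, vecMatroid_E]
  ext p
  simp only [Set.mem_preimage, Set.image_univ, Set.mem_union, Set.mem_range, Set.mem_univ,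
    iff_true]
  rcases pt p with x | x
  · left; exact ⟨x, rfl⟩
  · right; exact ⟨x, rfl⟩

lemma mat_rank (k : ℕ) (hk : 3 ≤ k) : (mat k).eRank ≤ k := by
  rw [← Matroid.eRk_univ_eq, Matroid.eRk_le_iff]
  intro I _ hI
  rw [mat_indep] at hI
  rw [← hI.2.encard_image]
  have h1 : pt '' I ⊆ Sum.inl '' (Sum.inl ⁻¹' (pt '' I)) ∪ Sum.inr '' {i : Fin k | 3 ≤ i.1} := by
    rintro _ ⟨p, hp, rfl⟩
    by_cases h : p.1.1 < 3
    · left
      refine ⟨(⟨p.1.1, h⟩, decide (p.2.1 ≠ 0)), ⟨p, hp, ?_⟩, ?_⟩ <;> simp [pt, h]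
    · right
      refine ⟨p.1, by simpa using h, ?_⟩
      simp [pt, h]
  have h2 : (Sum.inl ⁻¹' (pt '' I) : Set (Fin 3 × Bool)).encard ≤ 3 := by
    have h3 := hI.1.encard_le_toENat_rank
    refine h3.trans ?_
    rw [rank_fun', Fintype.card_fin]
    simp
  have h4 : ({i : Fin k | 3 ≤ i.1} : Set (Fin k)).encard ≤ ((k - 3 : ℕ) : ℕ∞) := by
    have h5 : ({i : Fin k | 3 ≤ i.1} : Set (Fin k)) =
        ((Finset.univ.filter fun i : Fin k => 3 ≤ i.1 : Finset (Fin k)) : Set (Fin k)) := by
      ext i; simp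
    rw [h5, Set.encard_coe_eq_coe_finsetCard]
    have h6 : (Finset.univ.filter fun i : Fin k => 3 ≤ i.1).card ≤ (Finset.range (k - 3)).card := by
      apply Finset.card_le_card_of_injOn (fun i => i.1 - 3)
      · intro i hi
        have := i.2
        simp only [Finset.coe_filter, Finset.mem_univ, true_and, Set.mem_ofPred_eq] at hi
        simp only [Finset.coe_range, Set.mem_Iio]
        omega
      · intro i hi j hj hij
        simp only [Finset.coe_filter, Finset.mem_univ, true_and, Set.mem_ofPred_eq] at hi hj hij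
        apply Fin.ext
        omega
    rw [Finset.card_range] at h6
    exact_mod_cast h6
  calc (pt '' I).encard ≤ _ := Set.encard_le_encard h1
    _ ≤ _ := Set.encard_union_le _ _
    _ ≤ 3 + ((k - 3 : ℕ) : ℕ∞) := by
        apply add_le_add
        · rw [Sum.inl_injective.encard_image]; exact h2
        · rw [Sum.inr_injective.encard_image]; exact h4
    _ = (k : ℕ∞) := by
        have h7 : 3 + (k - 3) = k := by omega
        exact_mod_cast h7

lemma mat_indep_col (k : ℕ) (j : Fin k) : (mat k).Indep {p | col p.1.1 p.2.1 = j.1} := by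
  rw [mat_indep]
  constructor
  · have h1 : ∀ x : Fin 3 × Bool, x ∈ (Sum.inl ⁻¹' (pt ''
        {p : Fin k × Fin k | col p.1.1 p.2.1 = j.1}) : Set (Fin 3 × Bool)) →
        ∃ b : ℕ, col x.1.1 b = j.1 ∧ x.2 = decide (b ≠ 0) := by
      rintro x ⟨p, hp, hpx⟩
      by_cases h : p.1.1 < 3
      · simp only [pt, h, dif_pos, Sum.inl.injEq] at hpx
        subst hpx
        exact ⟨p.2.1, hp, rfl⟩
      · simp [pt, h] at hpx
    by_cases hj0 : j.1 = 0
    · apply ind0.mono
      intro x hx
      obtain ⟨b, hb, hx2⟩ := h1 x hx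
      obtain ⟨⟨a, ha⟩, t⟩ := x
      simp only at hb hx2
      subst hx2
      rw [hj0] at hb
      unfold col at hb
      have h3 : (a = 0 ∧ b = 0) ∨ (a = 0 ∧ b = 1) ∨ (a = 1 ∧ b = 0) := by
        split_ifs at hb <;> omega
      rcases h3 with ⟨rfl, rfl⟩ | ⟨rfl, rfl⟩ | ⟨rfl, rfl⟩
      · exact ⟨1, rfl⟩
      · exact ⟨0, rfl⟩
      · exact ⟨2, rfl⟩
    · by_cases hj1 : j.1 = 1
      · apply ind1.mono
        intro x hx
        obtain ⟨b, hb, hx2⟩ := h1 x hx
        obtain ⟨⟨a, ha⟩, t⟩ := x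
        simp only at hb hx2
        subst hx2
        rw [hj1] at hb
        unfold col at hb
        have h3 : (a = 1 ∧ b = 1) ∨ (a = 2 ∧ b = 1) ∨ (a = 2 ∧ b = 0) := by
          split_ifs at hb <;> omega
        rcases h3 with ⟨rfl, rfl⟩ | ⟨rfl, rfl⟩ | ⟨rfl, rfl⟩
        · exact ⟨0, rfl⟩
        · exact ⟨1, rfl⟩
        · exact ⟨2, rfl⟩
      · apply ind2.mono
        intro x hx
        obtain ⟨b, hb, hx2⟩ := h1 x hx
        obtain ⟨⟨a, ha⟩, t⟩ := x
        simp only at hb hx2
        have h3 : b ≠ 0 := by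
          intro hb0
          unfold col at hb
          split_ifs at hb <;> omega
        have h4 : t = true := by rw [hx2]; simp [h3]
        subst h4
        refine ⟨⟨a, ha⟩, ?_⟩
        interval_cases a <;> rfl
  · rintro ⟨⟨a, ha⟩, ⟨b, hb⟩⟩ hp ⟨⟨a', ha'⟩, ⟨b', hb'⟩⟩ hq hpq
    simp only [Set.mem_ofPred_eq] at hp hq
    by_cases h : a < 3
    · by_cases h' : a' < 3
      · simp only [pt, h, h', dif_pos, Sum.inl.injEq, Prod.mk.injEq, Fin.mk.injEq,
          decide_eq_decide] at hpq
        obtain ⟨rfl, h2⟩ := hpq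
        have h3 : b = b' := by
          unfold col at hp hq
          by_cases hb0 : b = 0
          · omega
          · have hb0' : b' ≠ 0 := h2.mp hb0
            split_ifs at hp hq <;> omega
        subst h3
        rfl
      · simp [pt, h, h'] at hpq
    · by_cases h' : a' < 3
      · simp [pt, h, h'] at hpq
      · simp only [pt, h, h', dif_neg, not_false_eq_true, Sum.inr.injEq, Fin.mk.injEq] at hpq
        subst hpq
        have h3 : b = b' := by
          unfold col at hp hq
          split_ifs at hp hq <;> omega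
        subst h3
        rfl

lemma col_lt {k : ℕ} (hk : 3 ≤ k) (p : Fin k × Fin k) : col p.1.1 p.2.1 < k := by
  have := p.2.2
  unfold col
  split_ifs <;> omega

lemma col_card (k : ℕ) (hk : 3 ≤ k) (j : Fin k) :
    ({p | col p.1.1 p.2.1 = j.1} : Set (Fin k × Fin k)).encard = k := by
  have hcoe : ∀ j : Fin k, ({p | col p.1.1 p.2.1 = j.1} : Set (Fin k × Fin k)) =
      ((Finset.univ.filter fun p : Fin k × Fin k => col p.1.1 p.2.1 = j.1 :
        Finset (Fin k × Fin k)) : Set (Fin k × Fin k)) := by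
    intro j; ext p; simp
  have hle : ∀ j : Fin k,
      (Finset.univ.filter fun p : Fin k × Fin k => col p.1.1 p.2.1 = j.1).card ≤ k := by
    intro j
    have h1 := (mat_indep_col k j).eRk_eq_encard
    have h2 := (mat k).eRk_le_eRank {p | col p.1.1 p.2.1 = j.1}
    rw [h1, hcoe, Set.encard_coe_eq_coe_finsetCard] at h2
    exact_mod_cast h2.trans (mat_rank k hk)
  have hsum : ∑ j : Fin k,
      (Finset.univ.filter fun p : Fin k × Fin k => col p.1.1 p.2.1 = j.1).card = k * k := by
    have h1 := Finset.card_eq_sum_card_fiberwise (s := (Finset.univ : Finset (Fin k × Fin k)))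
      (f := fun p => (⟨col p.1.1 p.2.1, col_lt hk p⟩ : Fin k)) (t := Finset.univ)
      (fun _ _ => by simp)
    rw [Finset.card_univ, Fintype.card_prod, Fintype.card_fin] at h1
    rw [h1]
    apply Finset.sum_congr rfl
    intro j _
    congr 1
    ext p
    simp [Fin.ext_iff]
  rw [hcoe, Set.encard_coe_eq_coe_finsetCard]
  by_contra hne
  have h3 : (Finset.univ.filter fun p : Fin k × Fin k => col p.1.1 p.2.1 = j.1).card < k := by
    apply lt_of_le_of_ne (hle j)
    intro h
    exact hne (by rw [h])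
  have h4 : ∑ j : Fin k,
      (Finset.univ.filter fun p : Fin k × Fin k => col p.1.1 p.2.1 = j.1).card <
      ∑ _j : Fin k, k := Finset.sum_lt_sum (fun i _ => hle i) ⟨j, Finset.mem_univ j, h3⟩
  rw [hsum, Finset.sum_const, Finset.card_univ, Fintype.card_fin, smul_eq_mul] at h4
  exact lt_irrefl _ h4

lemma sum_phi (k : ℕ) (hk : 3 ≤ k) : ∑ x : Fin k, (decide (x.1 ≠ 0)).toNat = k - 1 := by
  obtain ⟨m, rfl⟩ : ∃ m, k = m + 1 := ⟨k - 1, by omega⟩
  rw [Fin.sum_univ_succ]
  simp

/-- For every `k ≥ 3` there is a matroid `M` on the set `Fin k × Fin k`, of rank `k`, whose ground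
set is the disjoint union of `k` bases, such that there are no `k` pairwise disjoint bases which
are transversals of the `k` blocks `{i} × Fin k`. -/
theorem result (k : ℕ) (hk : 3 ≤ k) : ∃ (M : Matroid (Fin k × Fin k))
    (B : Fin k → Set (Fin k × Fin k)), M.E = Set.univ ∧ M.eRank = (k : ℕ∞) ∧
    (∀ j, M.IsBase (B j)) ∧ (Pairwise fun i j => Disjoint (B i) (B j)) ∧
    (⋃ j, B j) = Set.univ ∧
    ¬ ∃ T : Fin k → Set (Fin k × Fin k), (∀ t, M.IsBase (T t)) ∧
      (∀ t i, (T t ∩ {p | p.1 = i}).encard = 1) ∧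
      (Pairwise fun t t' => Disjoint (T t) (T t')) := by
  have hbase : ∀ j : Fin k, (mat k).IsBase {p | col p.1.1 p.2.1 = j.1} := by
    intro j
    apply (mat_indep_col k j).isBase_of_eRk_ge (Set.toFinite _)
    rw [(mat_indep_col k j).eRk_eq_encard, col_card k hk j]
    exact mat_rank k hk
  refine ⟨mat k, fun j => {p | col p.1.1 p.2.1 = j.1}, mat_E k, ?_, hbase, ?_, ?_, ?_⟩
  · rw [← (hbase ⟨0, by omega⟩).encard_eq_eRank]
    exact col_card k hk _
  · intro i j hij
    rw [Set.disjoint_left]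
    intro p hp hq
    simp only [Set.mem_ofPred_eq] at hp hq
    exact hij (Fin.ext (hp.symm.trans hq))
  · rw [Set.eq_univ_iff_forall]
    intro p
    exact Set.mem_iUnion.mpr ⟨⟨col p.1.1 p.2.1, col_lt hk p⟩, rfl⟩
  · rintro ⟨T, hT1, hT2, hT3⟩
    have hg : ∀ t i, ∃ x : Fin k, (i, x) ∈ T t := by
      intro t i
      obtain ⟨p, hp⟩ := Set.encard_eq_one.mp (hT2 t i)
      have h1 : p ∈ T t ∩ {p | p.1 = i} := by rw [hp]; rfl
      obtain ⟨h2, h3⟩ := h1
      simp only [Set.mem_ofPred_eq] at h3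
      subst h3
      exact ⟨p.2, h2⟩
    choose g hg using hg
    have hinj : ∀ i, Function.Injective (fun t => g t i) := by
      intro i t t' h
      simp only at h
      by_contra hne
      have h1 := hg t i
      rw [h] at h1
      exact Set.disjoint_left.mp (hT3 hne) h1 (hg t' i)
    let b : Fin 3 → Fin k := fun a => ⟨a.1, by omega⟩
    have hodd : ∀ t, ((decide ((g t (b 0)).1 ≠ 0)).toNat + (decide ((g t (b 1)).1 ≠ 0)).toNat +
        (decide ((g t (b 2)).1 ≠ 0)).toNat) % 2 = 1 := by
      intro t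
      have h1 := (mat_indep k (T t)).mp (hT1 t).indep
      apply odd_of_indep h1.1 (fun a => decide ((g t (b a)).1 ≠ 0))
      intro a
      refine ⟨(b a, g t (b a)), hg t (b a), ?_⟩
      have h2 : (b a).1 < 3 := a.2
      simp only [pt, h2, dif_pos]
      rfl
    have hsum : ∀ a, ∑ t, (decide ((g t (b a)).1 ≠ 0)).toNat = k - 1 := by
      intro a
      have hbij : Function.Bijective (fun t => g t (b a)) :=
        Finite.injective_iff_bijective.mp (hinj (b a))
      rw [← sum_phi k hk]
      exact hbij.sum_comp (fun x : Fin k => (decide (x.1 ≠ 0)).toNat)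
    have htot : ∑ t, ((decide ((g t (b 0)).1 ≠ 0)).toNat + (decide ((g t (b 1)).1 ≠ 0)).toNat +
        (decide ((g t (b 2)).1 ≠ 0)).toNat) = 3 * (k - 1) := by
      rw [Finset.sum_add_distrib, Finset.sum_add_distrib, hsum, hsum, hsum]
      ring
    have hq : ∀ t, ∃ q, (decide ((g t (b 0)).1 ≠ 0)).toNat + (decide ((g t (b 1)).1 ≠ 0)).toNat +
        (decide ((g t (b 2)).1 ≠ 0)).toNat = 2 * q + 1 := fun t =>
      ⟨((decide ((g t (b 0)).1 ≠ 0)).toNat + (decide ((g t (b 1)).1 ≠ 0)).toNat +
        (decide ((g t (b 2)).1 ≠ 0)).toNat) / 2, by have := hodd t; omega⟩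
    choose q hq using hq
    rw [Finset.sum_congr rfl (fun t _ => hq t), Finset.sum_add_distrib, ← Finset.mul_sum,
      Finset.sum_const, Finset.card_univ, Fintype.card_fin, smul_eq_mul, mul_one] at htot
    omega

end Pool.Agent.Results.MP_908e85_co.EveryK
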